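import Pool.Agent.Lib.MP_abd978_an.Interfaces

/-!
# Project ABD: module HALG (affine functions of harmonic functions)
-/

set_option autoImplicit false

open MeasureTheory Metric Set Filter Topology ContDiff
open scoped Gradient RealInnerProductSpace

namespace Pool.Agent.Lib.MP_abd978_an.H36

variable {n : ℕ}

theorem grad_affine {f : E n → ℝ} {x : E n} (hf : DifferentiableAt ℝ f x) (b c : ℝ) :
    ∇ (fun y => c + b * f y) x = b • ∇ f x := by
  have h : HasFDerivAt (fun y => c + b * f y) (b • fderiv ℝ f x) x :=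
    (hf.hasFDerivAt.const_mul b).const_add c
  rw [grad_of_hasFDerivAt h, map_smulₛₗ]
  rfl

/-- affine functions of a Sobolev function -/
theorem isSob_affine {μ : Measure (E n)} {p : ℝ} {D : Set (E n)} {u : E n → ℝ} {v : E n → E n}
    (hD : IsOpen D) (hfin : μ D ≠ ⊤) (h : IsSob μ p D u v) (b c : ℝ) :
    IsSob μ p D (fun x => c + b * u x) (fun x => b • v x) := by
  haveI : IsFiniteMeasure (μ.restrict D) := ⟨by
    rw [Measure.restrict_apply_univ]
    exact lt_top_iff_ne_top.2 hfin⟩
  obtain ⟨h1, h2, φ, h3, h4, h5⟩ := h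
  refine ⟨(memLp_const c).add (h1.const_mul b), h2.const_smul b, fun i x => c + b * φ i x,
    fun i => contDiffOn_const.add (contDiffOn_const.mul (h3 i)), ?_, ?_⟩
  · have h6 : Tendsto (fun i => ‖b‖ₑ * eLpNorm (fun x => φ i x - u x) (ENNReal.ofReal p)
        (μ.restrict D)) atTop (𝓝 0) := by
      have h7 := ENNReal.Tendsto.const_mul (a := ‖b‖ₑ) h4 (Or.inr (by simp))
      rwa [mul_zero] at h7
    refine h6.congr fun i => ?_
    rw [← eLpNorm_const_smul]
    congr 1
    funext x
    show b • (φ i x - u x) = c + b * φ i x - (c + b * u x)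
    rw [smul_eq_mul]
    ring
  · have h6 : Tendsto (fun i => ‖b‖ₑ * eLpNorm (fun x => ∇ (φ i) x - v x) (ENNReal.ofReal p)
        (μ.restrict D)) atTop (𝓝 0) := by
      have h7 := ENNReal.Tendsto.const_mul (a := ‖b‖ₑ) h5 (Or.inr (by simp))
      rwa [mul_zero] at h7
    refine h6.congr fun i => ?_
    rw [← eLpNorm_const_smul]
    refine eLpNorm_congr_ae ?_
    refine (ae_restrict_iff' hD.measurableSet).2 (Eventually.of_forall fun x hx => ?_)
    have h8 : DifferentiableAt ℝ (φ i) x :=
      ((h3 i).contDiffAt (hD.mem_nhds hx)).differentiableAt (by simp)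
    show b • (∇ (φ i) x - v x) = ∇ (fun y => c + b * φ i y) x - b • v x
    rw [grad_affine h8, smul_sub]

theorem halg : HalgStatement := by
  intro n p μ a α β U u hop hU hu
  haveI := hop.lf
  obtain ⟨h1, v, h2, h3⟩ := hu
  have hfin : ∀ D : Set (E n), IsCompact (closure D) → μ D ≠ ⊤ := fun D hD =>
    ((measure_mono subset_closure).trans_lt hD.measure_lt_top).ne
  constructor
  · intro c
    refine ⟨continuousOn_const.sub h1, fun x => -v x, fun D hD hDc hDU => ?_, fun φ hφ => ?_⟩
    · have h4 := isSob_affine hD (hfin D hDc) (h2 D hD hDc hDU) (-1) c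
      have h5 : (fun x => c + -1 * u x) = fun x => c - u x := by
        funext x
        ring
      have h6 : (fun x => (-1 : ℝ) • v x) = fun x => -v x := by
        funext x
        simp
      rwa [h5, h6] at h4
    · have h4 := h3 φ hφ
      calc ∫ x, ⟪a x (-v x), ∇ φ x⟫ ∂μ = ∫ x, -⟪a x (v x), ∇ φ x⟫ ∂μ := by
            refine integral_congr_ae (Eventually.of_forall fun x => ?_)
            show ⟪a x (-v x), ∇ φ x⟫ = -⟪a x (v x), ∇ φ x⟫
            rw [hop.neg, inner_neg_left]
        _ = 0 := by rw [integral_neg, h4, neg_zero]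
  · intro c hc
    refine ⟨continuousOn_const.mul h1, fun x => c • v x, fun D hD hDc hDU => ?_, fun φ hφ => ?_⟩
    · have h4 := isSob_affine hD (hfin D hDc) (h2 D hD hDc hDU) c 0
      have h5 : (fun x => 0 + c * u x) = fun x => c * u x := by
        funext x
        ring
      rwa [h5] at h4
    · have h4 := h3 φ hφ
      calc ∫ x, ⟪a x (c • v x), ∇ φ x⟫ ∂μ = ∫ x, c ^ (p - 1) * ⟪a x (v x), ∇ φ x⟫ ∂μ := by
            refine integral_congr_ae (Eventually.of_forall fun x => ?_)
            show ⟪a x (c • v x), ∇ φ x⟫ = c ^ (p - 1) * ⟪a x (v x), ∇ φ x⟫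
            rw [hop.hom x c (v x) hc, real_inner_smul_left]
        _ = 0 := by rw [integral_const_mul, h4, mul_zero]

end Pool.Agent.Lib.MP_abd978_an.H36
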