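import Pool.Agent.Lib.MP_abd978_an.Interfaces

/-!
# Project ABD: module SOB (Sobolev inequalities for limits of test functions)
-/

set_option autoImplicit false

open MeasureTheory Metric Set Filter Topology ContDiff
open scoped Gradient RealInnerProductSpace

namespace Pool.Agent.Lib.MP_abd978_an.H36

variable {n : ℕ}

/-- the normalised restriction of `μ` to a ball -/
noncomputable def nu (μ : Measure (E n)) (z : E n) (r : ℝ) : Measure (E n) :=
  ((μ.restrict (ball z r)) univ)⁻¹ • μ.restrict (ball z r)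

theorem average_eq_nu (μ : Measure (E n)) (z : E n) (r : ℝ) (f : E n → ℝ) :
    ⨍ x in ball z r, f x ∂μ = ∫ x, f x ∂(nu μ z r) := rfl

theorem nu_prob {p : ℝ} {μ : Measure (E n)} (h : Geo p μ) {z : E n} {r : ℝ} (hr : 0 < r) :
    IsProbabilityMeasure (nu μ z r) := by
  have := h.lf
  have h1 : (μ.restrict (ball z r)) univ ≠ 0 := by
    rw [Measure.restrict_apply_univ]
    intro h0
    have h2 := h.pos z r hr
    rw [measureReal_def, h0] at h2
    simp at h2
  have h2 : (μ.restrict (ball z r)) univ ≠ ⊤ := by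
    rw [Measure.restrict_apply_univ]
    exact measure_ball_lt_top.ne
  constructor
  rw [nu, Measure.smul_apply, smul_eq_mul]
  exact ENNReal.inv_mul_cancel h1 h2

theorem nu_const {p : ℝ} {μ : Measure (E n)} (h : Geo p μ) {z : E n} {r : ℝ} (hr : 0 < r) :
    ((μ.restrict (ball z r)) univ)⁻¹ ≠ 0 ∧ ((μ.restrict (ball z r)) univ)⁻¹ ≠ ⊤ := by
  have := h.lf
  constructor
  · rw [ENNReal.inv_ne_zero, Measure.restrict_apply_univ]
    exact measure_ball_lt_top.ne
  · rw [ENNReal.inv_ne_top, Measure.restrict_apply_univ]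
    intro h0
    have h2 := h.pos z r hr
    rw [measureReal_def, h0] at h2
    simp at h2

/-- comparison of norms and of integrals -/
theorem eLpNorm_le_iff {ν : Measure (E n)} {q p : ℝ} (hq : 0 < q) (hp : 0 < p) {f : E n → ℝ}
    {g : E n → E n} (hf : MemLp f (ENNReal.ofReal q) ν) (hg : MemLp g (ENNReal.ofReal p) ν)
    {K : ℝ} (hK : 0 ≤ K) :
    eLpNorm f (ENNReal.ofReal q) ν ≤ ENNReal.ofReal K * eLpNorm g (ENNReal.ofReal p) ν ↔
      (∫ x, |f x| ^ q ∂ν) ^ (1 / q) ≤ K * (∫ x, ‖g x‖ ^ p ∂ν) ^ (1 / p) := by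
  rw [hf.eLpNorm_eq_integral_rpow_norm (by simpa using hq) ENNReal.ofReal_ne_top,
    hg.eLpNorm_eq_integral_rpow_norm (by simpa using hp) ENNReal.ofReal_ne_top,
    ENNReal.toReal_ofReal hq.le, ENNReal.toReal_ofReal hp.le, ← ENNReal.ofReal_mul hK,
    ENNReal.ofReal_le_ofReal_iff (mul_nonneg hK (Real.rpow_nonneg
      (integral_nonneg fun x => Real.rpow_nonneg (norm_nonneg _) _) _)), one_div, one_div]
  rfl

/-- the Sobolev inequality for `H0`, in terms of norms -/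
theorem sob_aux {p : ℝ} {μ : Measure (E n)} (h : Geo p μ) : ∃ κ C : ℝ, 1 < κ ∧ 0 < C ∧
    ∀ (z : E n) (r : ℝ) (Ψ : E n → ℝ) (V : E n → E n), 0 < r → H0 μ p (ball z r) Ψ V →
      eLpNorm Ψ (ENNReal.ofReal (κ * p)) (nu μ z r) ≤
        ENNReal.ofReal (C * r) * eLpNorm V (ENNReal.ofReal p) (nu μ z r) := by
  have hp0 : 0 < p := lt_trans one_pos h.hp
  obtain ⟨κ, hκ, C, hC, hsob⟩ := h.sob
  have := h.lf
  refine ⟨κ, C, hκ, hC, fun z r Ψ V hr hΨ => ?_⟩
  have hpr := nu_prob h (z := z) hr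
  obtain ⟨hc0, hcT⟩ := nu_const h (z := z) hr
  have hκp : 0 < κ * p := by positivity
  -- the inequality for test functions
  have htest : ∀ φ : E n → ℝ, Test (ball z r) φ →
      eLpNorm φ (ENNReal.ofReal (κ * p)) (nu μ z r) ≤
        ENNReal.ofReal (C * r) * eLpNorm (fun x => ∇ φ x) (ENNReal.ofReal p) (nu μ z r) := by
    intro φ hφ
    have h1 := hsob z r hr φ hφ
    rw [average_eq_nu, average_eq_nu] at h1
    have hlf : IsLocallyFiniteMeasure (nu μ z r) := inferInstance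
    exact (eLpNorm_le_iff hκp hp0 (hφ.memLp _) (hφ.memLp_grad _) (by positivity)).2 h1
  obtain ⟨h1, h2, ψ, h3, h4, h5⟩ := hΨ
  -- norms with respect to `ν`
  have hle : ∀ {F : Type} [NormedAddCommGroup F] (f : E n → F),
      eLpNorm f (ENNReal.ofReal p) (nu μ z r) ≤
        (((μ.restrict (ball z r)) univ)⁻¹) ^ (1 / ENNReal.ofReal p).toReal *
          eLpNorm f (ENNReal.ofReal p) μ := by
    intro F _ f
    rw [nu, eLpNorm_smul_measure_of_ne_zero hc0, smul_eq_mul]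
    gcongr
    exact Measure.restrict_le_self
  have hconst : (((μ.restrict (ball z r)) univ)⁻¹) ^ (1 / ENNReal.ofReal p).toReal ≠ ⊤ :=
    ENNReal.rpow_ne_top_of_nonneg ENNReal.toReal_nonneg hcT
  have hac : nu μ z r ≪ μ :=
    Measure.smul_absolutelyContinuous.trans Measure.restrict_le_self.absolutelyContinuous
  have hp1 : (1 : ENNReal) ≤ ENNReal.ofReal p := one_le_ofReal h.hp
  have hpne : ENNReal.ofReal p ≠ 0 := (lt_of_lt_of_le one_pos hp1).ne'
  obtain ⟨ns, hns, hae⟩ := (tendstoInMeasure_of_tendsto_eLpNorm (μ := μ) hpne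
    (fun i => (h3 i).1.continuous.aestronglyMeasurable) h1.1 h4).exists_seq_tendsto_ae
  have hlim : eLpNorm Ψ (ENNReal.ofReal (κ * p)) (nu μ z r) ≤
      liminf (fun i => eLpNorm (ψ (ns i)) (ENNReal.ofReal (κ * p)) (nu μ z r)) atTop :=
    Lp.eLpNorm_lim_le_liminf_eLpNorm
      (fun i => (h3 (ns i)).1.continuous.aestronglyMeasurable) Ψ (hac.ae_le hae)
  refine hlim.trans ?_
  set c' := (((μ.restrict (ball z r)) univ)⁻¹) ^ (1 / ENNReal.ofReal p).toReal with hc'
  have hV2 : AEStronglyMeasurable V (nu μ z r) := h2.1.mono_ac hac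
  have hbd : ∀ i, eLpNorm (ψ (ns i)) (ENNReal.ofReal (κ * p)) (nu μ z r) ≤
      ENNReal.ofReal (C * r) * (c' * eLpNorm (fun x => ∇ (ψ (ns i)) x - V x)
        (ENNReal.ofReal p) μ + eLpNorm V (ENNReal.ofReal p) (nu μ z r)) := by
    intro i
    refine (htest _ (h3 (ns i))).trans ?_
    gcongr
    have h6 : (fun x => ∇ (ψ (ns i)) x) = (fun x => ∇ (ψ (ns i)) x - V x) + V := by
      funext x
      simp
    calc eLpNorm (fun x => ∇ (ψ (ns i)) x) (ENNReal.ofReal p) (nu μ z r)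
        = eLpNorm ((fun x => ∇ (ψ (ns i)) x - V x) + V) (ENNReal.ofReal p) (nu μ z r) := by
          rw [← h6]
      _ ≤ eLpNorm (fun x => ∇ (ψ (ns i)) x - V x) (ENNReal.ofReal p) (nu μ z r) +
          eLpNorm V (ENNReal.ofReal p) (nu μ z r) :=
          eLpNorm_add_le (((continuous_grad (h3 (ns i)).1).aestronglyMeasurable).sub hV2) hV2 hp1
      _ ≤ _ := by
          gcongr
          exact hle _
  have ht : Tendsto (fun i => ENNReal.ofReal (C * r) * (c' * eLpNorm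
      (fun x => ∇ (ψ (ns i)) x - V x) (ENNReal.ofReal p) μ +
        eLpNorm V (ENNReal.ofReal p) (nu μ z r))) atTop
      (𝓝 (ENNReal.ofReal (C * r) * eLpNorm V (ENNReal.ofReal p) (nu μ z r))) := by
    have h7 := ENNReal.Tendsto.const_mul (a := c') (h5.comp hns.tendsto_atTop) (Or.inr hconst)
    rw [mul_zero] at h7
    have h8 := h7.add_const (eLpNorm V (ENNReal.ofReal p) (nu μ z r))
    rw [zero_add] at h8
    exact ENNReal.Tendsto.const_mul h8 (Or.inr ENNReal.ofReal_ne_top)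
  calc liminf (fun i => eLpNorm (ψ (ns i)) (ENNReal.ofReal (κ * p)) (nu μ z r)) atTop
      ≤ liminf (fun i => ENNReal.ofReal (C * r) * (c' * eLpNorm
          (fun x => ∇ (ψ (ns i)) x - V x) (ENNReal.ofReal p) μ +
            eLpNorm V (ENNReal.ofReal p) (nu μ z r))) atTop :=
        liminf_le_liminf (Eventually.of_forall hbd)
    _ = _ := ht.liminf_eq

theorem memLp_nu {p : ℝ} {μ : Measure (E n)} (h : Geo p μ) {z : E n} {r : ℝ} (hr : 0 < r)
    {F : Type} [NormedAddCommGroup F] {f : E n → F} {q : ENNReal} (hf : MemLp f q μ) :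
    MemLp f q (nu μ z r) :=
  (hf.restrict _).smul_measure (nu_const h hr).2

theorem sob2 : Sob2Statement := by
  intro n p μ h
  have hp0 : 0 < p := lt_trans one_pos h.hp
  obtain ⟨κ, C, hκ, hC, hmain⟩ := sob_aux h
  refine ⟨κ, C ^ p, hκ, Real.rpow_pos_of_pos hC _, fun z r Ψ V M hr hΨ _ => ?_⟩
  have hκp : 0 < κ * p := by positivity
  have h1 := hmain z r Ψ V hr hΨ
  have hV : MemLp V (ENNReal.ofReal p) (nu μ z r) := memLp_nu h hr hΨ.2.1
  have hΨm : MemLp Ψ (ENNReal.ofReal (κ * p)) (nu μ z r) :=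
    ⟨(memLp_nu h hr hΨ.1 : MemLp Ψ (ENNReal.ofReal p) (nu μ z r)).1,
      h1.trans_lt (ENNReal.mul_lt_top ENNReal.ofReal_lt_top hV.2)⟩
  have h2 := (eLpNorm_le_iff hκp hp0 hΨm hV (by positivity : 0 ≤ C * r)).1 h1
  rw [average_eq_nu, average_eq_nu]
  have hX : 0 ≤ ∫ x, |Ψ x| ^ (κ * p) ∂(nu μ z r) :=
    integral_nonneg fun x => Real.rpow_nonneg (abs_nonneg _) _
  have hZ : 0 ≤ ∫ x, ‖V x‖ ^ p ∂(nu μ z r) :=
    integral_nonneg fun x => Real.rpow_nonneg (norm_nonneg _) _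
  have h3 := Real.rpow_le_rpow (Real.rpow_nonneg hX _) h2 hp0.le
  rw [← Real.rpow_mul hX, Real.mul_rpow (by positivity) (Real.rpow_nonneg hZ _),
    Real.mul_rpow hC.le hr.le, ← Real.rpow_mul hZ] at h3
  have h4 : 1 / (κ * p) * p = 1 / κ := by
    have : κ ≠ 0 := by positivity
    field_simp
  have h5 : 1 / p * p = 1 := by
    field_simp
  rwa [h4, h5, Real.rpow_one] at h3

theorem sob1 : Sob1Statement := by
  intro n p μ h
  have hp0 : 0 < p := lt_trans one_pos h.hp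
  have := h.lf
  obtain ⟨κ, C, hκ, hC, hmain⟩ := sob_aux h
  refine ⟨C ^ p, Real.rpow_pos_of_pos hC _, fun z r Ψ V hr hΨ => ?_⟩
  have hpr := nu_prob h (z := z) hr
  have h1 := hmain z r Ψ V hr hΨ
  have hV : MemLp V (ENNReal.ofReal p) (nu μ z r) := memLp_nu h hr hΨ.2.1
  have hΨm : MemLp Ψ (ENNReal.ofReal p) (nu μ z r) := memLp_nu h hr hΨ.1
  have h0 : eLpNorm Ψ (ENNReal.ofReal p) (nu μ z r) ≤
      ENNReal.ofReal (C * r) * eLpNorm V (ENNReal.ofReal p) (nu μ z r) := by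
    refine le_trans (eLpNorm_le_eLpNorm_of_exponent_le ?_ hΨm.1) h1
    exact ENNReal.ofReal_le_ofReal (by nlinarith)
  have h2 := (eLpNorm_le_iff hp0 hp0 hΨm hV (by positivity : 0 ≤ C * r)).1 h0
  have hX : 0 ≤ ∫ x, |Ψ x| ^ p ∂(nu μ z r) :=
    integral_nonneg fun x => Real.rpow_nonneg (abs_nonneg _) _
  have hZ : 0 ≤ ∫ x, ‖V x‖ ^ p ∂(nu μ z r) :=
    integral_nonneg fun x => Real.rpow_nonneg (norm_nonneg _) _
  have h3 := Real.rpow_le_rpow (Real.rpow_nonneg hX _) h2 hp0.le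
  rw [← Real.rpow_mul hX, Real.mul_rpow (by positivity) (Real.rpow_nonneg hZ _),
    Real.mul_rpow hC.le hr.le, ← Real.rpow_mul hZ] at h3
  have h5 : 1 / p * p = 1 := by
    field_simp
  rw [h5, Real.rpow_one, Real.rpow_one, ← average_eq_nu, ← average_eq_nu,
    setAverage_eq, setAverage_eq, smul_eq_mul, smul_eq_mul] at h3
  have hB : 0 < μ.real (ball z r) := h.pos z r hr
  have h6 : ∫ x in ball z r, |Ψ x| ^ p ∂μ ≤ C ^ p * r ^ p * ∫ x in ball z r, ‖V x‖ ^ p ∂μ := by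
    have h7 := mul_le_mul_of_nonneg_left h3 hB.le
    rwa [← mul_assoc, mul_inv_cancel₀ hB.ne', one_mul,
      show μ.real (ball z r) * (C ^ p * r ^ p * ((μ.real (ball z r))⁻¹ *
        ∫ x in ball z r, ‖V x‖ ^ p ∂μ)) = (μ.real (ball z r) * (μ.real (ball z r))⁻¹) *
          (C ^ p * r ^ p * ∫ x in ball z r, ‖V x‖ ^ p ∂μ) by ring,
      mul_inv_cancel₀ hB.ne', one_mul] at h7
  obtain ⟨h8, h9⟩ := H0.ae_eq_zero h.hp measurableSet_ball hΨ
  have h10 : ∫ x in ball z r, |Ψ x| ^ p ∂μ = ∫ x, |Ψ x| ^ p ∂μ := by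
    refine setIntegral_eq_integral_of_ae_compl_eq_zero ?_
    rw [ae_restrict_iff' measurableSet_ball.compl] at h8
    filter_upwards [h8] with x hx hx'
    rw [hx hx', abs_zero, Real.zero_rpow hp0.ne']
  have h11 : ∫ x in ball z r, ‖V x‖ ^ p ∂μ = ∫ x, ‖V x‖ ^ p ∂μ := by
    refine setIntegral_eq_integral_of_ae_compl_eq_zero ?_
    rw [ae_restrict_iff' measurableSet_ball.compl] at h9
    filter_upwards [h9] with x hx hx'
    rw [hx hx', norm_zero, Real.zero_rpow hp0.ne']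
  rwa [h10, h11] at h6

end Pool.Agent.Lib.MP_abd978_an.H36
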