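import Pool.Agent.Lib.MP_abd978_an.Interfaces

/-!
# Project ABD: module TOPC (topological corollaries)
-/

set_option autoImplicit false

open MeasureTheory Metric Set Filter Topology ContDiff
open scoped Gradient RealInnerProductSpace

namespace Pool.Agent.Lib.MP_abd978_an.H36

theorem topc : TopcStatement := by
  intro n Ω f hΩ hf hd
  constructor
  · intro G hG hGc hGΩ
    by_cases hsub : (f '' G).Subsingleton
    · exact Or.inr hsub
    left
    rw [isOpen_iff_mem_nhds]
    rintro _ ⟨x₀, hx₀, rfl⟩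
    have hopen : ∀ x ∈ G, (∀ U ∈ 𝓝 x, f '' (U ∩ Ω) ∈ 𝓝 (f x)) → f '' G ∈ 𝓝 (f x) := by
      intro x hx h
      have h1 := h G (hG.mem_nhds hx)
      rwa [inter_eq_left.2 hGΩ] at h1
    rcases hd x₀ (hGΩ hx₀) with h | h
    · exact hopen x₀ hx₀ h
    · set W : Set (E n) := interior {x | f x = f x₀} with hW
      have hWo : IsOpen W := isOpen_interior
      have hx₀W : x₀ ∈ W := mem_interior_iff_mem_nhds.2 h
      by_cases hcl : closure W ∩ G ⊆ W
      · exfalso
        have h1 := hGc.subset_of_closure_inter_subset hWo ⟨x₀, hx₀, hx₀W⟩ hcl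
        apply hsub
        rintro _ ⟨a, ha, rfl⟩ _ ⟨b, hb, rfl⟩
        have h2 : a ∈ {x | f x = f x₀} := interior_subset (h1 ha)
        have h3 : b ∈ {x | f x = f x₀} := interior_subset (h1 hb)
        exact (h2 : f a = f x₀).trans (h3 : f b = f x₀).symm
      · obtain ⟨x₁, ⟨h1, h2⟩, h3⟩ := not_subset.1 hcl
        have h4 : f x₁ = f x₀ := by
          have hc : ContinuousAt f x₁ := hf.continuousAt (hΩ.mem_nhds (hGΩ h2))
          have h5 : (𝓝[W] x₁).NeBot := mem_closure_iff_nhdsWithin_neBot.1 h1
          have h6 : Tendsto f (𝓝[W] x₁) (𝓝 (f x₁)) := hc.mono_left nhdsWithin_le_nhds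
          have h7 : Tendsto f (𝓝[W] x₁) (𝓝 (f x₀)) := by
            refine tendsto_const_nhds.congr' ?_
            filter_upwards [self_mem_nhdsWithin] with x hx
            have h8 : x ∈ {x | f x = f x₀} := interior_subset hx
            exact (h8 : f x = f x₀).symm
          exact tendsto_nhds_unique h6 h7
        rcases hd x₁ (hGΩ h2) with h5 | h5
        · rw [← h4]
          exact hopen x₁ h2 h5
        · exfalso
          apply h3
          rw [hW, mem_interior_iff_mem_nhds]
          filter_upwards [h5] with x hx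
          show f x = f x₀
          rw [hx, h4]
  · intro hR U hU hUΩ
    rw [isOpen_iff_mem_nhds]
    rintro _ ⟨x₀, hx₀, rfl⟩
    rcases hd x₀ (hUΩ hx₀) with h | h
    · have h1 := h U (hU.mem_nhds hx₀)
      rwa [inter_eq_left.2 hUΩ] at h1
    · exfalso
      have h1 : x₀ ∈ interior (Ω ∩ f ⁻¹' {f x₀}) := by
        rw [mem_interior_iff_mem_nhds]
        filter_upwards [h, hΩ.mem_nhds (hUΩ hx₀)] with x hx hx'
        exact ⟨hx', hx⟩
      rw [hR] at h1
      exact h1

end Pool.Agent.Lib.MP_abd978_an.H36
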